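import Pool.Agent.N795.BV.Stm

set_option autoImplicit false

open Polynomial

namespace Pool.Agent.N795.BV

/-- the sum of the zeros and the sum of the critical points -/
theorem sumw : S_SUMW := by
  intro m z w h
  rcases m with _ | n
  · simp
  · have h1 := congrArg (fun p => coeff p n) h
    simp only [coeff_derivative, coeff_C_mul] at h1
    have h2 := Polynomial.prod_X_sub_C_coeff_card_pred (Finset.univ : Finset (Fin (n + 1 + 1))) z (by simp)
    have h3 := Polynomial.prod_X_sub_C_coeff_card_pred (Finset.univ : Finset (Fin (n + 1))) w (by simp)
    simp only [Finset.card_univ, Fintype.card_fin, Nat.add_sub_cancel] at h2 h3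
    rw [h2, h3] at h1
    push_cast at h1 ⊢
    linear_combination h1

end Pool.Agent.N795.BV
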