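import Pool.Agent.N804.LI.StmE

set_option autoImplicit false

/-! Project LI, leaf DP: the primes congruent to one modulo `q` (helper826). -/

namespace Pool.Agent.N826.LIDP

open Filter Topology MeasureTheory
open Pool.Agent.N804.LI

theorem gs_nonneg (ε v : ℝ) (hε : 0 < ε) : 0 ≤ gs ε v := by
  unfold gs
  positivity

theorem gs_le (ε v : ℝ) (hε : 0 < ε) : gs ε v ≤ 1 / (ε * Real.sqrt (2 * Real.pi)) := by
  unfold gs
  apply div_le_div_of_nonneg_right _ (by positivity)
  refine Real.exp_le_one_iff.2 ?_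
  have : 0 ≤ v ^ 2 / (2 * ε ^ 2) := by positivity
  linarith

theorem gs_bd (ε : ℝ) (hε : 0 < ε) (y : ℝ) (n : ℕ) (hn : n ≠ 0) :
    gs ε (y - Real.log n) ≤ Real.exp (2 * ε ^ 2 + 2 * y) / (ε * Real.sqrt (2 * Real.pi)) *
      (n : ℝ) ^ (-(2 : ℝ)) := by
  have hn0 : (0 : ℝ) < n := by exact_mod_cast Nat.pos_of_ne_zero hn
  have e : (n : ℝ) ^ (-(2 : ℝ)) = Real.exp (-2 * Real.log n) := by
    rw [Real.rpow_def_of_pos hn0]
    ring_nf
  rw [e, div_mul_eq_mul_div, ← Real.exp_add]
  unfold gs
  apply div_le_div_of_nonneg_right _ (by positivity)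
  refine Real.exp_le_exp.2 ?_
  have key : (y - Real.log n) ^ 2 / (2 * ε ^ 2) + 2 * (y - Real.log n) + 2 * ε ^ 2 =
      ((y - Real.log n) + 2 * ε ^ 2) ^ 2 / (2 * ε ^ 2) := by
    field_simp
    ring
  have h2 : 0 ≤ ((y - Real.log n) + 2 * ε ^ 2) ^ 2 / (2 * ε ^ 2) := by positivity
  linarith

theorem gs_cont (ε : ℝ) (n : ℕ) : Continuous fun y : ℝ => gs ε (y - Real.log n) := by
  unfold gs
  fun_prop

theorem gs_tendsto (ε : ℝ) (hε : 0 < ε) (n : ℕ) :
    Tendsto (fun y : ℝ => gs ε (y - Real.log n)) atTop (𝓝 0) := by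
  have h1 : Tendsto (fun y : ℝ => y - Real.log n) atTop atTop :=
    tendsto_atTop_add_const_right _ _ tendsto_id
  have h2 : Tendsto (fun v : ℝ => v ^ 2 / (2 * ε ^ 2)) atTop atTop :=
    (tendsto_pow_atTop (by norm_num)).atTop_div_const (by positivity)
  have h3 : Tendsto (fun v : ℝ => gs ε v) atTop (𝓝 0) := by
    unfold gs
    have h4 := (Real.tendsto_exp_neg_atTop_nhds_zero.comp h2).div_const
      (ε * Real.sqrt (2 * Real.pi))
    rw [zero_div] at h4
    exact h4
  exact h3.comp h1

/-- the coefficient -/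
noncomputable def lam (n : ℕ) : ℝ := ArithmeticFunction.vonMangoldt n / Real.sqrt n

theorem lam_nonneg (n : ℕ) : 0 ≤ lam n :=
  div_nonneg ArithmeticFunction.vonMangoldt_nonneg (Real.sqrt_nonneg _)

theorem lam_zero : lam 0 = 0 := by
  unfold lam
  simp

theorem lam_le (n : ℕ) : lam n ≤ ArithmeticFunction.vonMangoldt n := by
  unfold lam
  rcases Nat.eq_zero_or_pos n with h | h
  · subst h
    simp
  · have h1 : (1 : ℝ) ≤ Real.sqrt n := by
      rw [Real.one_le_sqrt]
      exact_mod_cast h
    exact div_le_self ArithmeticFunction.vonMangoldt_nonneg h1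

theorem lam_sum : Summable (fun n : ℕ => ArithmeticFunction.vonMangoldt n *
    (n : ℝ) ^ (-(2 : ℝ))) := by
  have h := ArithmeticFunction.LSeriesSummable_vonMangoldt (s := (2 : ℂ)) (by norm_num)
  have h2 := h.norm
  refine h2.congr (fun n => ?_)
  rw [LSeries.norm_term_eq]
  split_ifs with h0
  · subst h0; simp
  · rw [Real.rpow_neg (by positivity), div_eq_mul_inv]
    congr 1
    simp [abs_of_nonneg ArithmeticFunction.vonMangoldt_nonneg]

/-- the constant -/
noncomputable def KK (ε y : ℝ) : ℝ :=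
  Real.exp (2 * ε ^ 2 + 2 * y) / (ε * Real.sqrt (2 * Real.pi))

theorem KK_nonneg (ε y : ℝ) (hε : 0 < ε) : 0 ≤ KK ε y := by
  unfold KK
  positivity

theorem KK_mono (ε y y' : ℝ) (hε : 0 < ε) (h : y ≤ y') : KK ε y ≤ KK ε y' := by
  unfold KK
  apply div_le_div_of_nonneg_right _ (by positivity)
  exact Real.exp_le_exp.2 (by linarith)

theorem term_le (ε : ℝ) (hε : 0 < ε) (y : ℝ) (n : ℕ) :
    lam n * gs ε (y - Real.log n) ≤
      KK ε y * (ArithmeticFunction.vonMangoldt n * (n : ℝ) ^ (-(2 : ℝ))) := by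
  rcases eq_or_ne n 0 with h | h
  · subst h
    rw [lam_zero]
    simp
  · have h1 := mul_le_mul (lam_le n) (gs_bd ε hε y n h) (gs_nonneg _ _ hε)
      ArithmeticFunction.vonMangoldt_nonneg
    refine h1.trans (le_of_eq ?_)
    unfold KK
    ring

theorem term_nonneg (ε : ℝ) (hε : 0 < ε) (y : ℝ) (n : ℕ) :
    0 ≤ lam n * gs ε (y - Real.log n) := mul_nonneg (lam_nonneg n) (gs_nonneg _ _ hε)

theorem term_sum (ε : ℝ) (hε : 0 < ε) (y : ℝ) :
    Summable fun n : ℕ => lam n * gs ε (y - Real.log n) :=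
  Summable.of_nonneg_of_le (term_nonneg ε hε y) (term_le ε hε y) (lam_sum.mul_left _)

open Classical in
theorem cont_part (q : ℕ) (ε : ℝ) (hε : 0 < ε) :
    Continuous (fun y : ℝ => ∑' n : ℕ, if (n : ZMod q) = 1 then
      lam n * gs ε (y - Real.log n) else 0) := by
  rw [continuous_iff_continuousAt]
  intro y₀
  have h1 : ContinuousOn (fun y : ℝ => ∑' n : ℕ, if (n : ZMod q) = 1 then
      lam n * gs ε (y - Real.log n) else 0) (Set.Iio (y₀ + 1)) := by
    refine continuousOn_tsum (u := fun n : ℕ => KK ε (y₀ + 1) *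
      (ArithmeticFunction.vonMangoldt n * (n : ℝ) ^ (-(2 : ℝ)))) (fun n => ?_)
      (lam_sum.mul_left _) fun n y hy => ?_
    · split_ifs
      · exact (continuous_const.mul (gs_cont ε n)).continuousOn
      · exact continuousOn_const
    · have h3 : 0 ≤ ArithmeticFunction.vonMangoldt n * (n : ℝ) ^ (-(2 : ℝ)) :=
        mul_nonneg ArithmeticFunction.vonMangoldt_nonneg (by positivity)
      split_ifs
      · rw [Real.norm_of_nonneg (term_nonneg ε hε y n)]
        refine (term_le ε hε y n).trans ?_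
        exact mul_le_mul_of_nonneg_right (KK_mono ε _ _ hε (le_of_lt hy)) h3
      · rw [norm_zero]
        exact mul_nonneg (KK_nonneg _ _ hε) h3
  exact h1.continuousAt (Iio_mem_nhds (by linarith))

/-- one prime -/
theorem one_prime (p : ℕ) (hp : p.Prime) : Summable fun n : ℕ => if p ∣ n then lam n else 0 := by
  have hinj : Function.Injective fun k : ℕ => p ^ (k + 1) := by
    intro a b h
    have := Nat.pow_right_injective hp.two_le h
    omega
  rw [← hinj.summable_iff]
  · have hp1 : (1 : ℝ) < Real.sqrt p := by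
      rw [Real.lt_sqrt (by norm_num)]
      simpa using hp.one_lt
    have h1 : Summable fun k : ℕ => Real.log p * ((Real.sqrt p)⁻¹) ^ (k + 1) := by
      have h2 := (summable_geometric_of_lt_one (by positivity) (inv_lt_one_of_one_lt₀ hp1))
      exact ((summable_nat_add_iff 1).2 h2).mul_left _
    refine h1.congr fun k => ?_
    simp only [Function.comp_apply]
    rw [if_pos (dvd_pow_self p (Nat.succ_ne_zero k))]
    unfold lam
    rw [ArithmeticFunction.vonMangoldt_apply_pow (Nat.succ_ne_zero k),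
      ArithmeticFunction.vonMangoldt_apply_prime hp, Nat.cast_pow, div_eq_mul_inv]
    congr 1
    rw [inv_pow, Real.sqrt_eq_rpow, Real.sqrt_eq_rpow, ← Real.rpow_natCast, ← Real.rpow_natCast,
      ← Real.rpow_mul (by positivity), ← Real.rpow_mul (by positivity), mul_comm]
  · intro n hn
    split_ifs with h
    · unfold lam
      have h0 : ArithmeticFunction.vonMangoldt n = 0 := by
        by_contra hne
        obtain ⟨r, j, hr, hj, rfl⟩ := ArithmeticFunction.vonMangoldt_ne_zero_iff.1 hne
        have hr' := hr.nat_prime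
        have : p = r := (Nat.prime_dvd_prime_iff_eq hp hr').1 (hp.dvd_of_dvd_pow h)
        subst this
        exact hn ⟨j - 1, by simp only; congr 1; omega⟩
      rw [h0, zero_div]
    · rfl

open Classical in
theorem cop_sum (q : ℕ) [NeZero q] : Summable fun n : ℕ => if n.Coprime q then 0 else lam n := by
  have h1 : Summable fun n : ℕ => ∑ p ∈ q.primeFactors, if p ∣ n then lam n else 0 :=
    summable_sum fun p hp => one_prime p (Nat.prime_of_mem_primeFactors hp)
  refine Summable.of_nonneg_of_le (fun n => ?_) (fun n => ?_) h1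
  · split_ifs
    · exact le_rfl
    · exact lam_nonneg n
  · have hnn : ∀ p ∈ q.primeFactors, 0 ≤ (if p ∣ n then lam n else 0) := by
      intro p _
      split_ifs
      · exact lam_nonneg n
      · exact le_rfl
    split_ifs with h
    · exact Finset.sum_nonneg hnn
    · obtain ⟨p, hp, h1, h2⟩ := Nat.Prime.not_coprime_iff_dvd.1 h
      have hm : p ∈ q.primeFactors := Nat.mem_primeFactors.2 ⟨hp, h2, NeZero.ne q⟩
      have h3 := Finset.single_le_sum hnn hm
      rw [if_pos h1] at h3
      exact h3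

open Classical in
theorem main : S_DP := by
  intro q _ c ε hε hc hc1
  refine ⟨cont_part q ε hε, ?_⟩
  -- the difference of the coefficients
  set D : ℕ → ℂ := fun n => (∑ χ : DirichletCharacter ℂ q, c χ n) -
    (if (n : ZMod q) = 1 then (q.totient : ℂ) else 0) with hD
  set M : ℝ := (Fintype.card (DirichletCharacter ℂ q) : ℝ) + q.totient with hM
  have hDM : ∀ n, ‖D n‖ ≤ M := by
    intro n
    refine (norm_sub_le _ _).trans (add_le_add ?_ ?_)
    · refine (norm_sum_le _ _).trans ((Finset.sum_le_sum fun χ _ => hc1 χ n).trans ?_)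
      simp
    · split_ifs
      · simp
      · simp
  have hD0 : ∀ n, n ≠ 0 → n.Coprime q → D n = 0 := by
    intro n hn hcop
    simp only [hD]
    rw [Finset.sum_congr rfl fun χ _ => hc χ n hn hcop, DirichletCharacter.sum_characters_eq,
      sub_self]
  have hsum : ∀ (y : ℝ) (χ : DirichletCharacter ℂ q), Summable fun n : ℕ =>
      ((lam n : ℝ) : ℂ) * c χ n * (gs ε (y - Real.log n) : ℂ) := by
    intro y χ
    refine Summable.of_norm_bounded (term_sum ε hε y) fun n => ?_
    rw [norm_mul, norm_mul, Complex.norm_real, Complex.norm_real,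
      Real.norm_of_nonneg (lam_nonneg n), Real.norm_of_nonneg (gs_nonneg _ _ hε)]
    have h1 : lam n * ‖c χ n‖ ≤ lam n * 1 := mul_le_mul_of_nonneg_left (hc1 χ n) (lam_nonneg n)
    rw [mul_one] at h1
    exact mul_le_mul_of_nonneg_right h1 (gs_nonneg _ _ hε)
  have hsum2 : ∀ y : ℝ, Summable fun n : ℕ => if (n : ZMod q) = 1 then
      lam n * gs ε (y - Real.log n) else 0 := by
    intro y
    refine Summable.of_nonneg_of_le (fun n => ?_) (fun n => ?_) (term_sum ε hε y)
    · split_ifs
      · exact term_nonneg ε hε y n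
      · exact le_rfl
    · split_ifs
      · exact le_rfl
      · exact term_nonneg ε hε y n
  have key : ∀ y : ℝ, (∑ χ : DirichletCharacter ℂ q, ∑' n : ℕ,
      ((lam n : ℝ) : ℂ) * c χ n * (gs ε (y - Real.log n) : ℂ)) -
    (q.totient : ℂ) * ((∑' n : ℕ, if (n : ZMod q) = 1 then
      lam n * gs ε (y - Real.log n) else 0 : ℝ) : ℂ) =
      ∑' n : ℕ, ((lam n : ℝ) : ℂ) * (gs ε (y - Real.log n) : ℂ) * D n := by
    intro y
    rw [← Summable.tsum_finsetSum fun χ _ => hsum y χ, Complex.ofReal_tsum, ← tsum_mul_left,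
      ← Summable.tsum_sub (summable_sum fun χ _ => hsum y χ)
        ((Complex.summable_ofReal.2 (hsum2 y)).mul_left _)]
    refine tsum_congr fun n => ?_
    simp only [hD]
    rw [mul_sub, Finset.mul_sum]
    congr 1
    · refine Finset.sum_congr rfl fun χ _ => ?_
      ring
    · split_ifs
      · push_cast
        ring
      · simp
  have hfin : Tendsto (fun y : ℝ => ∑' n : ℕ, ((lam n : ℝ) : ℂ) *
      (gs ε (y - Real.log n) : ℂ) * D n) atTop (𝓝 (∑' _n : ℕ, (0 : ℂ))) := by
    refine tendsto_tsum_of_dominated_convergence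
      (bound := fun n : ℕ => (if n.Coprime q then 0 else lam n) *
        (1 / (ε * Real.sqrt (2 * Real.pi)) * M)) ((cop_sum q).mul_right _) (fun n => ?_)
      (Eventually.of_forall fun y n => ?_)
    · have h1 := (Complex.continuous_ofReal.tendsto 0).comp (gs_tendsto ε hε n)
      have h2 := (h1.const_mul ((lam n : ℝ) : ℂ)).mul_const (D n)
      simpa using h2
    · have hM0 : 0 ≤ M := (norm_nonneg _).trans (hDM 0)
      rw [norm_mul, norm_mul, Complex.norm_real, Complex.norm_real,
        Real.norm_of_nonneg (lam_nonneg n), Real.norm_of_nonneg (gs_nonneg _ _ hε)]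
      rcases eq_or_ne n 0 with h | h
      · subst h
        rw [lam_zero]
        simp
      · by_cases hcop : n.Coprime q
        · rw [hD0 n h hcop, if_pos hcop]
          simp
        · rw [if_neg hcop, mul_assoc]
          refine mul_le_mul_of_nonneg_left ?_ (lam_nonneg n)
          exact mul_le_mul (gs_le _ _ hε) (hDM n) (norm_nonneg _) (by positivity)
  rw [tsum_zero] at hfin
  exact hfin.congr fun y => (key y).symm

end Pool.Agent.N826.LIDP
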